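import Pool.Agent.Helper94_SQS.Defs

/-!
# MP_5a6e11_an: statements of the modules
-/

set_option autoImplicit false

open MeasureTheory Filter Topology

namespace Pool.Agent.SQS

/-! ## Combinatorics -/

/-- SMALL -/
def SmallStmt : Prop := ∀ (ζ : Z) (k : ℕ), ∃ N, ∀ n, N ≤ n → k * (X ζ n).card ≤ n

/-- ACT -/
def ActStmt : Prop := ∀ (ξ : ℕ → Z) (k : ℕ), ∃ N, ∀ n, N ≤ n → act ξ k n

/-- INJ: the index set has at most continuum many elements -/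
def InjStmt : Prop := ∃ e : ℕ ⊕ Z → ℕ → Bool, Function.Injective e

/-- BIG: the filter -/
def BigStmt : Prop :=
  (∀ Y Y' : Set M, Y ⊆ Y' → Big Y → Big Y') ∧ (∀ Y Y' : Set M, Big Y → Big Y' → Big (Y ∩ Y')) ∧
  (∀ Y : Set M, Big Y → Y.Nonempty) ∧ (∀ m : M, Big {m}ᶜ) ∧ (∀ ζ : Z, Big {m | X ζ m.1 ⊆ m.2.1})

/-- CAP: capturing by a random point -/
def CapStmt : Prop := ∀ (Q : ℕ → Finset M) (b : ℕ → M → ℝ), (∀ j m, 0 ≤ b j m) →
  (∀ j, ∑ m ∈ Q j, b j m ≤ 1) → (∀ j, ∀ m ∈ Q j, j ≤ m.1) →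
  ∃ x : ℕ → Bool, ∀ δ : ℝ, 0 < δ → ∃ J, ∀ j, J ≤ j → ∀ R : Finset M, R ⊆ Q j →
    (∀ m ∈ R, res m.1 x ∈ m.2.1) → ∑ m ∈ R, b j m ≤ δ

/-! ## The space -/

/-- TOP -/
def TopStmt : Prop := IsClosed KS

/-- CLO -/
def CloStmt : Prop :=
  (∀ m w, Ok (clo m w)) ∧ (∀ m, Continuous (clo m)) ∧
  (∀ m p, Ok p → pa p m = true → clo m (fun j => p (Sum.inr j)) = p) ∧
  (∀ m p ζ, Ok p → (∀ m', pa p m' = false) → X ζ m.1 ⊆ m.2.1 →
    yb m (fun j => p (Sum.inr j)) ζ = py p ζ)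

/-- MU: the measure -/
def MuStmt : Prop := ∃ φ : C(KS, ℝ) →L[ℝ] ℝ, Pos φ ∧ φ 1 = 1 ∧
  ∀ ζ P, φ (ch ζ P) = (coin ℕ (V ζ)).toReal

/-- SUB: the measure of the open sets -/
def SubStmt : Prop := (∀ ζ, MeasurableSet (V ζ)) ∧ (∀ ξ, coin ℕ (V (Z.sq ξ)) ≤ ∑' k, coin ℕ (V (ξ k))) ∧
  (∀ n v, coin ℕ (V (Z.cl n v)) = ENNReal.ofReal (1 / 2 ^ n))

/-- SQA: point evaluations -/
def SqAStmt : Prop := ∀ (x : KS) (φ : C(KS, ℝ) →L[ℝ] ℝ), (∀ f, φ f = f x) → φ ∈ SS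

/-- SQB -/
def SqBStmt : Prop := Convex ℝ SS

/-- SQC -/
def SqCStmt : Prop := ∀ (u : ℕ → C(KS, ℝ) →L[ℝ] ℝ) (φ : C(KS, ℝ) →L[ℝ] ℝ), (∀ n, u n ∈ SS) →
  (∀ f, Tendsto (fun n => u n f) atTop (𝓝 (φ f))) → φ ∈ SS

/-! ## Continuous functions on closed subsets of Cantor cubes -/

/-- UNI -/
def UniStmt : Prop := ∀ (I : Type) (K : Set (I → Bool)), IsClosed K → ∀ (f : C(K, ℝ)) (ε : ℝ),
  0 < ε → ∃ S : Finset I, ∀ p q : K, (∀ i ∈ S, p.1 i = q.1 i) → |f p - f q| < ε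

/-- MEASF (product `σ`-algebra, not the Borel one) -/
def MeasfStmt : Prop := ∀ (I : Type) (K : Set (I → Bool)), IsClosed K → ∀ f : C(K, ℝ),
  Measurable fun p : K => f p

/-- REP (measures on the product `σ`-algebra) -/
def RepStmt : Prop := ∀ (I : Type) (K : Set (I → Bool)), IsClosed K →
  ∀ φ : C(K, ℝ) →L[ℝ] ℝ, Pos φ →
  ∃ ν : Measure K, IsFiniteMeasure ν ∧ ∀ f : C(K, ℝ), φ f = ∫ p, f p ∂ν

/-! ## Measures on Cantor cubes -/

/-- LOSA: events of all probabilities -/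
def LosAStmt : Prop := ∃ T : Set (ℝ × (ℕ → Bool)), MeasurableSet T ∧
  ∀ t : ℝ, 0 ≤ t → t ≤ 1 → coin ℕ {ω | (t, ω) ∈ T} = ENNReal.ofReal t

/-- LOSB: every measure is an image of coins -/
def LosBStmt : Prop := ∀ (I : Type) (ν : Measure (I → Bool)) [IsProbabilityMeasure ν],
  ∃ Y : (I → ℕ → Bool) → I → Bool, Measurable Y ∧
    (Measure.infinitePi fun _ : I => coin ℕ).map Y = ν

/-- LOSC: approximation by cylinder events -/
def LosCStmt : Prop := ∀ (I : Type) (E : Set (I → Bool)), MeasurableSet E → ∀ ε : ℝ, 0 < ε →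
  ∃ (J : Finset I) (E' : Set (I → Bool)), (∀ p q : I → Bool, (∀ j ∈ J, p j = q j) →
    (p ∈ E' ↔ q ∈ E')) ∧ coin I (symmDiff E E') ≤ ENNReal.ofReal ε

/-- LOSD: coins indexed by a set of reals as a limit of finitely supported measures -/
def LosDStmt : Prop := ∀ (I : Type) (e : I → ℕ → Bool), Function.Injective e →
  ∀ (h : (I → Bool) → ℝ) (J : Finset I), (∀ p q : I → Bool, (∀ j ∈ J, p j = q j) → h p = h q) →
  ∃ N, ∀ m : ℕ, N ≤ m →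
    (∑ w : (Fin m → Bool) → Bool, h (fun i => w (res m (e i)))) / 2 ^ 2 ^ m = ∫ p, h p ∂coin I

/-- LOS: all measures on Cantor cubes of weight at most continuum are tame -/
def LosStmt : Prop := ∀ (I : Type) (e : I → ℕ → Bool), Function.Injective e →
  ∀ (ν : Measure (I → Bool)) [IsFiniteMeasure ν], Tame fun f : C(I → Bool, ℝ) => ∫ p, f p ∂ν

/-! ## Tameness -/

/-- FIL: limits along the filter -/
def FilStmt : Prop := ∀ (S : Type) [TopologicalSpace S] (h : M → C(S, ℝ) → ℝ) (ψ : C(S, ℝ) → ℝ),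
  (∀ m, Tame (h m)) → (∀ f ε, 0 < ε → Big {m | |h m f - ψ f| < ε}) → Tame ψ

/-- TAME -/
def TameStmt : Prop := ∀ φ : C(KS, ℝ) →L[ℝ] ℝ, Pos φ → Tame (fun f => φ f)

/-! ## Functional analysis -/

/-- JOR: Jordan decomposition of functionals -/
def JorStmt : Prop := ∀ (S : Type) [TopologicalSpace S] [CompactSpace S] (φ : C(S, ℝ) →L[ℝ] ℝ),
  ∃ ψ χ : C(S, ℝ) →L[ℝ] ℝ, Pos ψ ∧ Pos χ ∧ ∀ f, φ f = ψ f - χ f

/-- EDGA: linearly independent functionals take arbitrary values -/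
def EdgAStmt : Prop := ∀ (E : Type) [AddCommGroup E] [Module ℝ E] (n : ℕ) (b : Fin n → E →ₗ[ℝ] ℝ),
  LinearIndependent ℝ b → ∀ c : Fin n → ℝ, ∃ x, ∀ i, b i x = c i

/-- EDGB: powers of the line have the countable chain condition (open boxes with finitely many
restricted coordinates, pairwise disjoint) -/
def EdgBStmt : Prop := ∀ (Γ T : Type) (J : T → Finset Γ) (a b : T → Γ → ℝ),
  (∀ t, ∀ γ ∈ J t, a t γ < b t γ) →
  (∀ s t, s ≠ t → ∃ γ, γ ∈ J s ∧ γ ∈ J t ∧ (b s γ ≤ a t γ ∨ b t γ ≤ a s γ)) → Countable T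

/-- EDG: Edgar's theorem: weakly continuous functions are measurable for the `σ`-algebra generated
by the functionals -/
def EdgStmt : Prop := ∀ (E : Type) [NormedAddCommGroup E] [NormedSpace ℝ E] (g : E → ℝ),
  @Continuous E ℝ (⨅ φ : E →L[ℝ] ℝ, TopologicalSpace.induced (⇑φ) inferInstance) _ g →
  @Measurable E ℝ (⨆ φ : E →L[ℝ] ℝ, MeasurableSpace.comap (⇑φ) (borel ℝ)) _ g

end Pool.Agent.SQS
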