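import Mathlib

/-!
# MP_5a6e11_an: definitions

A compact space `K` such that the pointwise and the weak Baire `σ`-algebras on `C(K)` agree, but the
weak* sequential closure of the finitely supported probabilities is not all of `P(K)`.
-/

set_option autoImplicit false

open MeasureTheory

namespace Pool.Agent.SQS

/-- the index set -/
inductive Z : Type
  | nil : Z
  | pt (x : ℕ → Bool) : Z
  | cl (n : ℕ) (v : ℕ → Bool) : Z
  | sq (ξ : ℕ → Z) : Z

/-- restriction to the first `n` coordinates -/
def res (n : ℕ) (x : ℕ → Bool) : Fin n → Bool := fun i => x i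

open Classical in
/-- the finite set of strings of length `n` on which `ζ` depends -/
noncomputable def X : Z → (n : ℕ) → Finset (Fin n → Bool)
  | .nil, _ => ∅
  | .pt x, n => {res n x}
  | .cl _ _, _ => ∅
  | .sq ξ, n => (Finset.range n).biUnion fun k =>
      if ∀ m, n ≤ m → (k + 1) * 2 ^ (k + 1) * (X (ξ k) m).card ≤ m then X (ξ k) n else ∅

/-- the `k`-th predecessor is active at level `n` -/
def act (ξ : ℕ → Z) (k n : ℕ) : Prop :=
  k < n ∧ ∀ m, n ≤ m → (k + 1) * 2 ^ (k + 1) * (X (ξ k) m).card ≤ m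

/-- the levels -/
abbrev M : Type := Σ n : ℕ, {H : Finset (Fin n → Bool) // H.card ≤ n}

/-- coordinates of the space -/
abbrev Idx : Type := M ⊕ (ℕ ⊕ Z)

/-- level coordinates -/
def pa (p : Idx → Bool) (m : M) : Bool := p (Sum.inl m)

/-- Cantor coordinates -/
def pu (p : Idx → Bool) (i : ℕ) : Bool := p (Sum.inr (Sum.inl i))

/-- `Z` coordinates -/
def py (p : Idx → Bool) (ζ : Z) : Bool := p (Sum.inr (Sum.inr ζ))

/-- the points of the space -/
structure Ok (p : Idx → Bool) : Prop where
  uniq : ∀ m m', pa p m = true → pa p m' = true → m = m'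
  rpt : ∀ (m : M) x, pa p m = true → res m.1 x ∉ m.2.1 → py p (Z.pt x) = true
  rcl : ∀ n v, (∀ i, i < n → pu p i = v i) → py p (Z.cl n v) = true
  rsq : ∀ ξ k, py p (ξ k) = true →
    py p (Z.sq ξ) = true ∨ ∃ m : M, pa p m = true ∧ ¬ act ξ k m.1

/-- the compact space, as a set of points of the Cantor cube -/
def KS : Set (Idx → Bool) := {p | Ok p}

/-- open subsets of the Cantor space -/
def V : Z → Set (ℕ → Bool)
  | .nil => ∅
  | .pt _ => ∅
  | .cl n v => {u | ∀ i, i < n → u i = v i}
  | .sq ξ => ⋃ k, V (ξ k)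

/-- the `Z` coordinates of the closure of `w` at level `m` -/
noncomputable def yb (m : M) (w : ℕ ⊕ Z → Bool) : Z → Bool
  | .nil => w (Sum.inr Z.nil)
  | .pt x => w (Sum.inr (Z.pt x)) || @decide (res m.1 x ∉ m.2.1) (Classical.propDecidable _)
  | .cl n v => w (Sum.inr (Z.cl n v)) ||
      @decide (∀ i, i < n → w (Sum.inl i) = v i) (Classical.propDecidable _)
  | .sq ξ => w (Sum.inr (Z.sq ξ)) ||
      @decide (∃ k, act ξ k m.1 ∧ yb m w (ξ k) = true) (Classical.propDecidable _)

/-- the closure of `w` at level `m` -/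
noncomputable def clo (m : M) (w : ℕ ⊕ Z → Bool) : Idx → Bool
  | .inl m' => @decide (m' = m) (Classical.propDecidable _)
  | .inr (.inl i) => w (Sum.inl i)
  | .inr (.inr ζ) => yb m w ζ

/-- the point at infinity over `u` with the least `Z` coordinates -/
noncomputable def top (u : ℕ → Bool) : Idx → Bool
  | .inl _ => false
  | .inr (.inl i) => u i
  | .inr (.inr ζ) => @decide (u ∈ V ζ) (Classical.propDecidable _)

/-- the uniform measure on `Bool` -/
noncomputable def unif : Measure Bool := (PMF.uniformOfFintype Bool).toMeasure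

instance : IsProbabilityMeasure unif := by unfold unif; infer_instance

/-- independent fair coins indexed by `I` -/
noncomputable def coin (I : Type) : Measure (I → Bool) := Measure.infinitePi fun _ : I => unif

instance (I : Type) : IsProbabilityMeasure (coin I) := by unfold coin; infer_instance

/-- measurability for the `σ`-algebra generated by the evaluations -/
def Tame {S : Type} [TopologicalSpace S] (φ : C(S, ℝ) → ℝ) : Prop :=
  @Measurable C(S, ℝ) ℝ (⨆ x : S, MeasurableSpace.comap (fun f : C(S, ℝ) => f x) (borel ℝ)) _ φ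

/-- positive functionals -/
def Pos {S : Type} [TopologicalSpace S] (φ : C(S, ℝ) →L[ℝ] ℝ) : Prop :=
  ∀ f : C(S, ℝ), 0 ≤ f → 0 ≤ φ f

/-- the sets of the filter on the levels -/
def Big (Y : Set M) : Prop :=
  ∀ k : ℕ, ∃ N : ℕ, ∀ n, N ≤ n → ∃ G : Finset (Fin n → Bool), k * G.card ≤ n ∧
    ∀ (H : Finset (Fin n → Bool)) (h : H.card ≤ n), G ⊆ H → (⟨n, ⟨H, h⟩⟩ : M) ∈ Y

/-- basic clopen sets -/
def cs (ζ : Z) (P : Finset M) : Set KS :=
  {p | py p.1 ζ = true ∨ ∃ m ∈ P, pa p.1 m = true}

theorem continuous_coord (i : Idx) : Continuous fun p : KS => p.1 i :=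
  (continuous_apply i).comp continuous_subtype_val

theorem isClopen_cs (ζ : Z) (P : Finset M) : IsClopen (cs ζ P) := by
  have h1 : IsClopen {p : KS | py p.1 ζ = true} :=
    (isClopen_discrete {true}).preimage (continuous_coord (Sum.inr (Sum.inr ζ)))
  have h2 : IsClopen (⋃ m ∈ P, {p : KS | pa p.1 m = true}) := by
    refine P.finite_toSet.isClopen_biUnion fun m _ => ?_
    exact (isClopen_discrete {true}).preimage (continuous_coord (Sum.inl m))
  have h3 : cs ζ P = {p : KS | py p.1 ζ = true} ∪ ⋃ m ∈ P, {p : KS | pa p.1 m = true} := by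
    ext p; simp [cs]
  rw [h3]
  exact h1.union h2

open Classical in
/-- indicator functions of the basic clopen sets -/
noncomputable def ch (ζ : Z) (P : Finset M) : C(KS, ℝ) where
  toFun := fun p => if p ∈ cs ζ P then 1 else 0
  continuous_toFun := by
    refine continuous_const.if ?_ continuous_const
    intro a ha
    change a ∈ frontier (cs ζ P) at ha
    rw [(isClopen_cs ζ P).frontier_eq] at ha
    exact absurd ha (Set.notMem_empty _)

/-- the sequentially closed set of functionals -/
def SS : Set (C(KS, ℝ) →L[ℝ] ℝ) :=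
  {φ | Pos φ ∧ φ 1 = 1 ∧ ∀ ε : ℝ, 0 < ε → ∃ (ζ : Z) (P : Finset M),
    coin ℕ (V ζ) ≤ ENNReal.ofReal ε ∧ 1 - ε ≤ φ (ch ζ P)}

end Pool.Agent.SQS
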