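import Pool.Agent.Helper94_SQS.Stmts

/-!
# MP_5a6e11_an: assembly
-/

set_option autoImplicit false

open MeasureTheory Filter Topology

namespace Pool.Agent.SQS

theorem eval_le {S : Type} [TopologicalSpace S] :
    (⨆ x : S, MeasurableSpace.comap (fun f : C(S, ℝ) => f x) (borel ℝ)) ≤
    (⨆ (g : C(S, ℝ) → ℝ) (_ : @Continuous C(S, ℝ) ℝ
          (TopologicalSpace.induced (fun (f : C(S, ℝ)) (x : S) => f x) inferInstance) _ g),
          MeasurableSpace.comap g (borel ℝ)) := by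
  refine iSup_le fun x => ?_
  refine le_iSup_of_le (fun f : C(S, ℝ) => f x) ?_
  refine le_iSup_of_le ?_ le_rfl
  exact @Continuous.comp C(S, ℝ) (S → ℝ) ℝ
    (TopologicalSpace.induced (fun (f : C(S, ℝ)) (x : S) => f x) inferInstance) _ _
    (fun f x => f x) (fun F => F x) (continuous_apply x) continuous_induced_dom

theorem le_induced_pi {E ι : Type} (t : TopologicalSpace E) (F : E → ι → ℝ)
    (h : ∀ i, @Continuous E ℝ t _ (fun e => F e i)) :
    t ≤ TopologicalSpace.induced F inferInstance :=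
  continuous_iff_le_induced.mp (continuous_pi h)

theorem sigma_eq {S : Type} [TopologicalSpace S] [CompactSpace S] (hJ : JorStmt) (hE : EdgStmt)
    (hT : ∀ φ : C(S, ℝ) →L[ℝ] ℝ, Pos φ → Tame (fun f => φ f)) :
    (⨆ (g : C(S, ℝ) → ℝ) (_ : @Continuous C(S, ℝ) ℝ
          (TopologicalSpace.induced (fun (f : C(S, ℝ)) (x : S) => f x) inferInstance) _ g),
          MeasurableSpace.comap g (borel ℝ))
        = (⨆ (g : C(S, ℝ) → ℝ) (_ : @Continuous C(S, ℝ) ℝ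
          (⨅ (φ : C(S, ℝ) →L[ℝ] ℝ), TopologicalSpace.induced (⇑φ) inferInstance) _ g),
          MeasurableSpace.comap g (borel ℝ)) := by
  apply le_antisymm
  · refine iSup_le fun g => iSup_le fun hg => ?_
    refine le_iSup_of_le g (le_iSup_of_le ?_ le_rfl)
    refine continuous_le_dom ?_ hg
    refine le_induced_pi _ _ fun x => ?_
    exact (continuous_iff_le_induced (f := fun f : C(S, ℝ) => f x)
      (t₁ := ⨅ (φ : C(S, ℝ) →L[ℝ] ℝ), TopologicalSpace.induced (⇑φ) inferInstance)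
      (t₂ := inferInstance)).mpr
      (iInf_le (fun φ : C(S, ℝ) →L[ℝ] ℝ => TopologicalSpace.induced (⇑φ) inferInstance)
        (ContinuousMap.evalCLM ℝ x))
  · refine iSup_le fun g => iSup_le fun hg => ?_
    have h1 := hE C(S, ℝ) g hg
    have h2 : (⨆ φ : C(S, ℝ) →L[ℝ] ℝ, MeasurableSpace.comap (⇑φ) (borel ℝ)) ≤
        (⨆ x : S, MeasurableSpace.comap (fun f : C(S, ℝ) => f x) (borel ℝ)) := by
      refine iSup_le fun φ => ?_
      obtain ⟨ψ, χ, hψ, hχ, h⟩ := hJ S φ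
      have h3 : @Measurable C(S, ℝ) ℝ
          (⨆ x : S, MeasurableSpace.comap (fun f : C(S, ℝ) => f x) (borel ℝ)) _ (⇑φ) := by
        have h4 : (⇑φ) = fun f => ψ f - χ f := funext h
        rw [h4]
        exact Measurable.sub (hT ψ hψ) (hT χ hχ)
      have h5 := h3.comap_le
      rwa [BorelSpace.measurable_eq (α := ℝ)] at h5
    have h6 := h1.comap_le
    rw [BorelSpace.measurable_eq (α := ℝ)] at h6
    exact (h6.trans h2).trans eval_le

theorem main_of (hTop : TopStmt) (hTame : TameStmt) (hJ : JorStmt) (hE : EdgStmt) (hMu : MuStmt)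
    (hA : SqAStmt) (hB : SqBStmt) (hC : SqCStmt) :
    ¬ (∀ (K : Type) [TopologicalSpace K] [CompactSpace K] [T2Space K],
      (⨆ (g : C(K, ℝ) → ℝ) (_ : @Continuous C(K, ℝ) ℝ
          (TopologicalSpace.induced (fun (f : C(K, ℝ)) (x : K) => f x) inferInstance) _ g),
          MeasurableSpace.comap g (borel ℝ))
        = (⨆ (g : C(K, ℝ) → ℝ) (_ : @Continuous C(K, ℝ) ℝ
          (⨅ (φ : C(K, ℝ) →L[ℝ] ℝ), TopologicalSpace.induced (⇑φ) inferInstance) _ g),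
          MeasurableSpace.comap g (borel ℝ)) →
      ⋂₀ {S : Set (C(K, ℝ) →L[ℝ] ℝ) |
          convexHull ℝ {φ : C(K, ℝ) →L[ℝ] ℝ | ∃ x : K, ∀ f : C(K, ℝ), φ f = f x} ⊆ S ∧
          ∀ (u : ℕ → C(K, ℝ) →L[ℝ] ℝ) (φ : C(K, ℝ) →L[ℝ] ℝ), (∀ n, u n ∈ S) →
            (∀ f : C(K, ℝ), Filter.Tendsto (fun n => u n f) Filter.atTop (nhds (φ f))) →
            φ ∈ S}
        = {φ : C(K, ℝ) →L[ℝ] ℝ | (∀ f : C(K, ℝ), 0 ≤ f → 0 ≤ φ f) ∧ φ 1 = 1}) := by
  intro h
  have : CompactSpace KS := isCompact_iff_compactSpace.mp (IsClosed.isCompact hTop)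
  have h1 := h KS (sigma_eq hJ hE hTame)
  obtain ⟨φ, hp, h11, hm⟩ := hMu
  have h2 : φ ∈ {φ : C(KS, ℝ) →L[ℝ] ℝ | (∀ f : C(KS, ℝ), 0 ≤ f → 0 ≤ φ f) ∧ φ 1 = 1} := ⟨hp, h11⟩
  rw [← h1] at h2
  have h3 : φ ∈ SS := by
    refine Set.mem_sInter.mp h2 SS ⟨?_, hC⟩
    refine convexHull_min ?_ hB
    rintro ψ ⟨x, hx⟩
    exact hA x ψ hx
  obtain ⟨_, _, h4⟩ := h3
  obtain ⟨ζ, P, h5, h6⟩ := h4 (1 / 3) (by norm_num)
  rw [hm] at h6
  have h7 : (coin ℕ (V ζ)).toReal ≤ 1 / 3 := by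
    have := ENNReal.toReal_mono ENNReal.ofReal_ne_top h5
    rwa [ENNReal.toReal_ofReal (by norm_num)] at this
  linarith

end Pool.Agent.SQS
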