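import Pool.Agent.Helper94_SQS.Stmts

/-!
# MP_5a6e11_an: module TAME
-/

set_option autoImplicit false

open MeasureTheory Filter Topology

namespace Pool.Agent.SQS.H94

theorem tame_comp {S T : Type} [TopologicalSpace S] [TopologicalSpace T] (j : C(T, S))
    (φ : C(T, ℝ) → ℝ) (h : Tame φ) : Tame fun f : C(S, ℝ) => φ (f.comp j) := by
  unfold Tame at h ⊢
  refine @Measurable.comp C(S, ℝ) C(T, ℝ) ℝ
    (⨆ x : S, MeasurableSpace.comap (fun f : C(S, ℝ) => f x) (borel ℝ))
    (⨆ x : T, MeasurableSpace.comap (fun f : C(T, ℝ) => f x) (borel ℝ)) _ φ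
    (fun f => f.comp j) h ?_
  rw [measurable_iff_comap_le, MeasurableSpace.comap_iSup]
  refine iSup_le fun x => ?_
  rw [MeasurableSpace.comap_comp]
  exact le_iSup_of_le (j x) le_rfl

theorem measurable_cube (hM : MeasfStmt) {I : Type} (f : C(I → Bool, ℝ)) :
    Measurable fun p => f p := by
  have h1 := hM I Set.univ isClosed_univ
    (f.comp ⟨fun p : (Set.univ : Set (I → Bool)) => p.1, continuous_subtype_val⟩)
  have h2 : Measurable fun p : I → Bool => (⟨p, trivial⟩ : (Set.univ : Set (I → Bool))) :=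
    measurable_id.subtype_mk
  exact h1.comp h2

/-- the coordinates in `ℕ ⊕ Z` -/
def rr (p : KS) : ℕ ⊕ Z → Bool := fun j => p.1 (Sum.inr j)

theorem measurable_coord (i : Idx) : Measurable fun p : KS => p.1 i :=
  (measurable_pi_apply i).comp measurable_subtype_coe

theorem measurable_rr : Measurable rr :=
  measurable_pi_lambda _ fun j => measurable_coord (Sum.inr j)

/-- the continuous closure map -/
noncomputable def jm (hC : CloStmt) (m : M) : C(ℕ ⊕ Z → Bool, KS) where
  toFun := fun w => ⟨clo m w, hC.1 m w⟩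
  continuous_toFun := (hC.2.1 m).subtype_mk _

theorem tame_jm (hC : CloStmt) (hM : MeasfStmt) (hL : LosStmt) (hI : InjStmt) (m : M)
    (ν : Measure KS) [IsFiniteMeasure ν] :
    Tame fun f : C(KS, ℝ) => ∫ p, f (jm hC m (rr p)) ∂ν := by
  obtain ⟨e, he⟩ := hI
  have h1 := tame_comp (jm hC m) _ (hL (ℕ ⊕ Z) e he (ν.map rr))
  have h2 : (fun f : C(KS, ℝ) => ∫ p, f (jm hC m (rr p)) ∂ν) =
      fun f : C(KS, ℝ) => ∫ w, (f.comp (jm hC m)) w ∂(ν.map rr) := by
    funext f
    rw [integral_map measurable_rr.aemeasurable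
      (measurable_cube hM (f.comp (jm hC m))).aestronglyMeasurable]
    rfl
  rw [h2]
  exact h1

theorem big_univ (hB : BigStmt) : Big Set.univ :=
  hB.1 _ _ (Set.subset_univ _) (hB.2.2.2.1 ⟨0, ⟨∅, by simp⟩⟩)

theorem big_inter (hB : BigStmt) {ι : Type} (S : Finset ι) (Y : ι → Set M) (h : ∀ i ∈ S, Big (Y i)) :
    Big {m | ∀ i ∈ S, m ∈ Y i} := by
  classical
  induction S using Finset.induction_on with
  | empty => simpa using big_univ hB
  | insert a S ha ih =>
    have h1 := hB.2.1 _ _ (h a (Finset.mem_insert_self _ _))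
      (ih fun i hi => h i (Finset.mem_insert_of_mem hi))
    refine hB.1 _ _ ?_ h1
    rintro m ⟨h2, h3⟩ i hi
    rcases Finset.mem_insert.mp hi with rfl | hi
    · exact h2
    · exact h3 i hi

theorem tame (hTop : TopStmt) (hC : CloStmt) (hB : BigStmt) (hI : InjStmt) (hU : UniStmt)
    (hM : MeasfStmt) (hR : RepStmt) (hL : LosStmt) (hF : FilStmt) : TameStmt := by
  intro φ hφ
  have hK : CompactSpace KS := isCompact_iff_compactSpace.mp (IsClosed.isCompact hTop)
  obtain ⟨ν, hν, hi⟩ := hR Idx KS hTop φ hφ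
  have hmf : ∀ f : C(KS, ℝ), Measurable fun p : KS => f p := fun f => hM Idx KS hTop f
  have hint : ∀ (f : C(KS, ℝ)) (ρ : Measure KS) [IsFiniteMeasure ρ], Integrable (fun p => f p) ρ := by
    intro f ρ _
    refine Integrable.of_bound (hmf f).aestronglyMeasurable ‖f‖ ?_
    exact Eventually.of_forall fun p => f.norm_coe_le_norm p
  -- the partition
  set A : M → Set KS := fun m => {p | pa p.1 m = true} with hA
  have hAm : ∀ m, MeasurableSet (A m) := fun m =>
    measurable_coord (Sum.inl m) (measurableSet_singleton true)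
  have hdisj : Pairwise (Function.onFun Disjoint A) := by
    intro m m' hmm
    refine Set.disjoint_left.mpr fun p hp hp' => hmm ?_
    exact p.2.uniq m m' hp hp'
  have hU' : MeasurableSet (⋃ m, A m) := MeasurableSet.iUnion hAm
  have hsplit : ∀ f : C(KS, ℝ), φ f = (∫ p in ⋃ m, A m, f p ∂ν) + ∫ p in (⋃ m, A m)ᶜ, f p ∂ν := by
    intro f
    rw [hi f, integral_add_compl hU' (hint f ν)]
  have h1 : Tame fun f : C(KS, ℝ) => ∫ p in ⋃ m, A m, f p ∂ν := by
    have h2 : ∀ m, Tame fun f : C(KS, ℝ) => ∫ p in A m, f p ∂ν := by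
      intro m
      have h3 := tame_jm hC hM hL hI m (ν.restrict (A m))
      have h4 : (fun f : C(KS, ℝ) => ∫ p in A m, f p ∂ν) =
          fun f : C(KS, ℝ) => ∫ p in A m, f (jm hC m (rr p)) ∂ν := by
        funext f
        refine setIntegral_congr_fun (hAm m) fun p hp => ?_
        have h5 : jm hC m (rr p) = p := Subtype.ext (hC.2.2.1 m p.1 p.2 hp)
        simp only [h5]
      rw [h4]
      exact h3
    have h6 : ∀ f : C(KS, ℝ), HasSum (fun m => ∫ p in A m, f p ∂ν) (∫ p in ⋃ m, A m, f p ∂ν) :=
      fun f => hasSum_integral_iUnion hAm hdisj (hint f ν).integrableOn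
    refine @measurable_of_tendsto_metrizable' C(KS, ℝ) ℝ
      (⨆ x : KS, MeasurableSpace.comap (fun f : C(KS, ℝ) => f x) (borel ℝ)) _ _ _ _ (Finset M)
      (fun s f => ∑ m ∈ s, ∫ p in A m, f p ∂ν) _ atTop _ _ ?_ ?_
    · intro s
      exact Finset.measurable_fun_sum s fun m _ => h2 m
    · exact tendsto_pi_nhds.mpr fun f => h6 f
  have h7 : Tame fun f : C(KS, ℝ) => ∫ p in (⋃ m, A m)ᶜ, f p ∂ν := by
    refine hF KS (fun m f => ∫ p in (⋃ m, A m)ᶜ, f (jm hC m (rr p)) ∂ν) _ ?_ ?_
    · intro m
      exact tame_jm hC hM hL hI m (ν.restrict (⋃ m, A m)ᶜ)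
    · intro f ε hε
      set c : ℝ := ν.real Set.univ with hc
      have hc0 : 0 ≤ c := measureReal_nonneg
      obtain ⟨S, hS⟩ := hU Idx KS hTop f (ε / (c + 1)) (by positivity)
      let Y : Idx → Set M := fun i => match i with
        | .inl m0 => {m0}ᶜ
        | .inr (.inl _) => Set.univ
        | .inr (.inr ζ) => {m | X ζ m.1 ⊆ m.2.1}
      have hY : ∀ i ∈ S, Big (Y i) := by
        intro i _
        rcases i with m0 | k | ζ
        · exact hB.2.2.2.1 m0
        · exact big_univ hB
        · exact hB.2.2.2.2 ζ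
      refine hB.1 _ _ ?_ (big_inter hB S Y hY)
      intro m hm
      have h8 : ∀ p : KS, p ∈ (⋃ m, A m)ᶜ → |f (jm hC m (rr p)) - f p| < ε / (c + 1) := by
        intro p hp
        have hp' : ∀ m', pa p.1 m' = false := by
          intro m'
          by_contra hne
          exact hp (Set.mem_iUnion.mpr ⟨m', Bool.eq_true_of_not_eq_false hne⟩)
        refine hS _ _ fun i hi => ?_
        have h9 := hm i hi
        rcases i with m0 | k | ζ
        · have h10 : m ≠ m0 := h9
          have h11 : (jm hC m (rr p)).1 (Sum.inl m0) = false := by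
            change @decide (m0 = m) (Classical.propDecidable _) = false
            rw [decide_eq_false_iff_not]
            exact fun h => h10 h.symm
          rw [h11]
          exact (hp' m0).symm
        · rfl
        · exact hC.2.2.2 m p.1 ζ p.2 hp' h9
      have h12 : ‖∫ p in (⋃ m, A m)ᶜ, (f (jm hC m (rr p)) - f p) ∂ν‖ ≤
          ε / (c + 1) * (ν.restrict (⋃ m, A m)ᶜ).real Set.univ := by
        refine norm_integral_le_of_norm_le_const ?_
        refine (ae_restrict_iff' hU'.compl).mpr (Eventually.of_forall fun p hp => ?_)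
        rw [Real.norm_eq_abs]
        exact (h8 p hp).le
      have h13 : (ν.restrict (⋃ m, A m)ᶜ).real Set.univ ≤ c := by
        rw [measureReal_restrict_apply MeasurableSet.univ]
        exact measureReal_mono (Set.subset_univ _)
      have h14 : Integrable (fun p => f (jm hC m (rr p))) (ν.restrict (⋃ m, A m)ᶜ) := by
        refine Integrable.of_bound ?_ ‖f‖ ?_
        · exact ((measurable_cube hM (f.comp (jm hC m))).comp measurable_rr).aestronglyMeasurable
        · exact Eventually.of_forall fun p => f.norm_coe_le_norm _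
      rw [integral_sub h14 (hint f _)] at h12
      have h15 : ε / (c + 1) * (ν.restrict (⋃ m, A m)ᶜ).real Set.univ < ε := by
        have h16 : ε / (c + 1) * (ν.restrict (⋃ m, A m)ᶜ).real Set.univ ≤ ε / (c + 1) * c :=
          mul_le_mul_of_nonneg_left h13 (by positivity)
        have h17 : ε / (c + 1) * c < ε := by
          rw [div_mul_eq_mul_div, div_lt_iff₀ (by positivity)]
          nlinarith
        linarith
      exact lt_of_le_of_lt h12 h15
  have h18 : (fun f => φ f) = fun f : C(KS, ℝ) =>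
      (∫ p in ⋃ m, A m, f p ∂ν) + ∫ p in (⋃ m, A m)ᶜ, f p ∂ν := funext hsplit
  rw [h18]
  exact Measurable.add h1 h7

end Pool.Agent.SQS.H94
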